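import Mathlib
import Pool.Agent.MP_c355a0_ag.Mg.Main

set_option autoImplicit false

namespace Pool.Agent.Results.MP_c355a0_ag.Nonvanishing

theorem two_mul_choose_two (q : ℕ) : 2 * (q + 1).choose 2 = (q + 1) * q := by
  induction q with
  | zero => rfl
  | succ q ih => rw [Nat.choose_succ_succ (q + 1) 1, Nat.choose_one_right]; nlinarith

theorem six_mul_choose_three (q : ℕ) : 6 * (q + 1).choose 3 + q = q ^ 3 := by
  induction q with
  | zero => rfl
  | succ q ih =>
    rw [Nat.choose_succ_succ (q + 1) 2]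
    have := two_mul_choose_two q
    nlinarith

theorem exists_q (n : ℕ) (hn : (73 ≤ n ∧ n ≤ 83) ∨ 91 ≤ n) :
    ∃ q : ℕ, q * (q + 1) < n ∧ n < (q + 1).choose 3 := by
  rcases hn with ⟨h1, h2⟩ | h
  · refine ⟨8, by omega, ?_⟩
    have : (8 + 1).choose 3 = 84 := by decide
    omega
  · have key : ∃ q : ℕ, 9 ≤ q ∧ q * (q + 1) < n ∧ n ≤ (q + 1) * (q + 2) := by
      induction n, h using Nat.le_induction with
      | base => exact ⟨9, by omega, by omega, by omega⟩
      | succ n _ ih =>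
        obtain ⟨q, h9, hlt, hle⟩ := ih
        rcases hle.lt_or_eq with hle | hle
        · exact ⟨q, h9, by omega, by omega⟩
        · exact ⟨q + 1, by omega, by nlinarith, by nlinarith⟩
    obtain ⟨q, h9, hlt, hle⟩ := key
    refine ⟨q, hlt, ?_⟩
    have h6 := six_mul_choose_three q
    have h7 : 9 * (q * q) ≤ q ^ 3 := by nlinarith
    nlinarith

/-- For `73 ≤ n ≤ 83` or `n ≥ 91`, every `d ≥ 2`, every `k ≥ 1` and every choice of `n + 1` forms
of degree `d` in `n` variables, the degree `d k + 1` piece of `S / (f_1, …, f_{n+1})^k`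
(the image of `S_{dk+1}` in the quotient) has nonzero dimension. -/
theorem result :
    ∀ n d k : ℕ, ((73 ≤ n ∧ n ≤ 83) ∨ 91 ≤ n) → 2 ≤ d → 1 ≤ k →
      ∀ f : Fin (n + 1) → MvPolynomial (Fin n) ℂ, (∀ i, (f i).IsHomogeneous d) →
        Module.finrank ℂ
          ((MvPolynomial.homogeneousSubmodule (Fin n) ℂ (d * k + 1)).map
            (Ideal.Quotient.mkₐ ℂ ((Ideal.span (Set.range f)) ^ k)).toLinearMap) ≠ 0 := by
  intro n d k hn hd hk f hf h0
  obtain ⟨q, hq, hq'⟩ := exists_q n hn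
  obtain ⟨g, hg, hgI⟩ := Pool.Agent.MP_c355a0_ag.exists_not_mem n d k q hq hq' hd hk f hf
  have hfg := (MvPolynomial.homogeneousSubmodule_fg (σ := Fin n) (R := ℂ) (d * k + 1)).map
    (Ideal.Quotient.mkₐ ℂ ((Ideal.span (Set.range f)) ^ k)).toLinearMap
  have := Module.Finite.of_fg hfg
  rw [Submodule.finrank_eq_zero] at h0
  have h1 := Submodule.mem_map_of_mem
    (f := (Ideal.Quotient.mkₐ ℂ ((Ideal.span (Set.range f)) ^ k)).toLinearMap)
    ((MvPolynomial.mem_homogeneousSubmodule _ _).mpr hg)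
  rw [h0, Submodule.mem_bot] at h1
  exact hgI (Ideal.Quotient.eq_zero_iff_mem.mp h1)

end Pool.Agent.Results.MP_c355a0_ag.Nonvanishing
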